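import Pool.Agent.MP_ee8c61_ag.M3SB.Th

/-! A linear system without base points whose ratios have no common first integral is big. -/

set_option autoImplicit false

namespace Pool.Agent.MP_ee8c61_ag.M3SB

open M3 M3RESID M3S M3J Pool.Agent.MP_96693b_ag.RS Pool.Agent.MP_cce4c9_lc.H87 WithZero Filter

noncomputable section

variable {K : Type} [Field K] [Algebra ℂ K] {M : Model K 2}

theorem exists_br' (C : M3RESID.Co K 2) {S : Set K}
    (hS : ∀ X : VF K, (∀ g ∈ S, X g = 0) → X = 0) : ∃ g ∈ S, ∃ h ∈ S, br C g h ≠ 0 := by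
  by_contra! hn
  have a : ∀ g ∈ S, ∀ h, br C g h = 0 := fun g hg h => by
    have := DFunLike.congr_fun
      (hS (C.D 0 g • C.D 1 - C.D 1 g • C.D 0) fun x hx => hn g hg x hx) h
    exact this
  have := DFunLike.congr_fun (hS (C.D 1 (C.z 1) • C.D 0 - C.D 0 (C.z 1) • C.D 1) fun x hx => by
    have := a x hx (C.z 1)
    simp only [br, Derivation.sub_apply, Derivation.smul_apply, smul_eq_mul] at this ⊢
    linear_combination this) (C.z 0)
  simp [C.dual] at this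

theorem der_div {X : VF K} {a b : K} (ha : X a = 0) (hb : X b = 0) : X (a / b) = 0 := by
  rw [div_eq_mul_inv, Derivation.leibniz, Derivation.leibniz_inv, ha, hb]
  simp

theorem ratio_of {T : Finset K} {X : VF K} {s : K} (s0 : s ≠ 0) (h : ∀ t ∈ T, X (t / s) = 0) :
    ∀ a ∈ T, ∀ b ∈ T, X (b / a) = 0 := fun a ha b hb => by
  rw [← div_div_div_cancel_right₀ s0 b a]
  exact der_div (h b hb) (h a ha)

namespace IsTh

variable {T : Finset K} {D : Dr M} (h : IsTh T D)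
include h

/-- Finitely many curves have degree zero. -/
theorem fin_null' (hM : Fnd M) (C : M3RESID.Co K 2)
    (hS : ∀ X : VF K, (∀ s ∈ T, ∀ s' ∈ T, X (s' / s) = 0) → X = 0) :
    {Γ : Crv M | II M D (pr Γ) = 0}.Finite := by
  classical
  refine (T.finite_toSet.biUnion (t := fun s => {Γ : Crv M | s ≠ 0 ∧
    ∀ t ∈ T, ∃ c : ℂ, Γ.1.val (t / s - algebraMap ℂ K c) < 1}) fun s hs => ?_).subset
    fun Γ h0 => ?_
  · by_cases s0 : s = 0
    · simp [s0]
    obtain ⟨_, ⟨a, ha, rfl⟩, _, ⟨b, hb, rfl⟩, hb0⟩ :=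
      exists_br' C (S := (fun t => t / s) '' (T : Set K)) fun X hX =>
        hS X (ratio_of s0 fun t ht => hX _ ⟨t, ht, rfl⟩)
    exact (fin_const hM.toB2 C hb0).subset fun Γ hΓ => ⟨hΓ.2 a ha, hΓ.2 b hb⟩
  · obtain ⟨s, hs, s0, e⟩ := h.ex Γ
    exact Set.mem_biUnion hs ⟨s0, fun t ht => h.const hM h0 (h.mem s hs) s0 e (h.mem t ht)⟩

theorem big' (hM : Fnd M) (C : M3RESID.Co K 2)
    (hS : ∀ X : VF K, (∀ s ∈ T, ∀ s' ∈ T, X (s' / s) = 0) → X = 0) : 0 < II M D D := by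
  obtain ⟨p, hp⟩ := ROK.off hM (h.fin_null' hM C hS).toFinset
  obtain ⟨s, hs, s0, e⟩ := h.gen p
  have h1 : Eqn D p s⁻¹ := by simpa using M3V.eq_inv (D := -D) ⟨s0, e⟩
  have hO : ∀ t ∈ T, t / s ∈ (M.loc p).O := fun t ht =>
    div_eq_mul_inv t s ▸ (hM.memH D h.int t).1 (h.mem t ht) p _ h1
  obtain ⟨t, ht, hne⟩ : ∃ t ∈ T, t / s - algebraMap ℂ K ((M.loc p).ev (t / s)) ≠ 0 := by
    by_contra! hn
    have := DFunLike.congr_fun (hS (C.D 0) (ratio_of s0 fun t ht => by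
      rw [sub_eq_zero.1 (hn t ht), Derivation.map_algebraMap])) (C.z 0)
    simp [C.dual] at this
  set c := (M.loc p).ev (t / s) with hc
  have hm : t / s - algebraMap ℂ K c ∈ (M.loc p).O :=
    sub_mem (hO t ht) ((M.loc p).O.algebraMap_mem c)
  obtain ⟨Γ, hΓ, hv⟩ := hM.thru p _ hm (by
    rw [Loc.ev_sub (hO t ht) ((M.loc p).O.algebraMap_mem c), (M.loc p).ev_alg, sub_self])
  have e1 : t - c • s = (t / s - algebraMap ℂ K c) * s := by
    rw [Algebra.smul_def]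
    field_simp
  have f0 : t - c • s ≠ 0 := e1 ▸ mul_ne_zero hne s0
  have hE := (ROK.mem_iff hM.toFinS f0).1
    (sub_mem (h.mem t ht) (Submodule.smul_mem _ c (h.mem s hs)))
  have h2 := M3SN.Nef.term_le (I := II M) (h.nef hM) hE Γ
  rw [hM.sym D (_ + _), II_add_dvr hM f0] at h2
  refine lt_of_lt_of_le (mul_pos ?_ (lt_of_le_of_ne (h.nef hM Γ) fun e0 =>
    hp Γ ((Set.Finite.mem_toFinset _).2 e0.symm) hΓ)) h2
  rw [Finsupp.add_apply, hM.dva, e1, Γ.1.ord_mul (Γ.1.val_ne hne) (Γ.1.val_ne s0), Int.cast_add,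
    e Γ hΓ, Finsupp.neg_apply, neg_add_cancel_right]
  exact_mod_cast (Γ.1.val_lt_one (Γ.1.val_ne hne)).1 hv

end IsTh

end

end Pool.Agent.MP_ee8c61_ag.M3SB
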