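import Pool.Agent.MP_96693b_ag.DR.ERes
import Pool.Agent.MP_96693b_ag.DR.EPm
import Pool.Agent.MP_96693b_ag.DR.FCh
import Pool.Agent.MP_ee8c61_ag.M3F.Spec

/-! Every surface field has a smooth projective model on which given finite systems of functions
have no base points. -/

set_option autoImplicit false

namespace Pool.Agent.MP_ee8c61_ag.M3SB

open Pool.Agent.MP_96693b_ag M3RESID
open scoped IntermediateField

noncomputable section

variable {L : Type} [Field L] [Algebra ℂ L]

theorem co_le {n n' : ℕ} (C : Co L n) (x : Fin n' → L) (D : Fin n' → VF L)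
    (h : ∀ i j, D i (x j) = if i = j then 1 else 0) : n' ≤ n := by
  have h1 : LinearIndependent L D := Fintype.linearIndependent_iff.2 fun g hg j => by
    have := congrArg (fun v : VF L => v (x j)) hg
    simpa [sum_ap, h] using this
  let φ : VF L →ₗ[L] (Fin n → L) :=
    { toFun := fun v i => v (C.z i)
      map_add' := fun _ _ => rfl
      map_smul' := fun _ _ => rfl }
  have h2 := h1.map' φ (LinearMap.ker_eq_bot'.2 fun v hv => C.span v (congrFun hv))
  simpa using h2.fintype_card_le_finrank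

/-- The functions in `T` have no base point at the local ring `O`. -/
def NoB (T : Finset L) (O : Subalgebra ℂ L) : Prop := ∃ s ∈ T, s ≠ 0 ∧ ∀ s' ∈ T, s' / s ∈ O

theorem exists_mdl (C : Co L 2)
    (hf : FiniteDimensional (IntermediateField.adjoin ℂ (Set.range C.z)) L) {κ : Type} [Fintype κ]
    (T : κ → Finset L) (hT : ∀ k, ∃ s ∈ T k, s ≠ 0) :
    ∃ M : RS.Model L 2, ∀ k p, NoB (T k) (M.loc p).O := by
  classical
  obtain ⟨G, hG⟩ : ∃ G : Finset L, IntermediateField.adjoin ℂ (G : Set L) = ⊤ := by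
    obtain ⟨B, hB⟩ := Module.finite_def.1 hf
    refine ⟨B ∪ Finset.univ.image C.z, eq_top_iff.2 fun x h0 => ?_⟩
    clear h0
    have hx : x ∈ Submodule.span (IntermediateField.adjoin ℂ (Set.range C.z)) (B : Set L) :=
      hB ▸ trivial
    induction hx using Submodule.span_induction with
    | mem y hy => exact IntermediateField.subset_adjoin _ _ (by simp [hy])
    | zero => exact zero_mem _
    | add y z _ _ hy hz => exact add_mem hy hz
    | smul c y _ hy =>
      refine mul_mem (IntermediateField.adjoin.mono _ _ _ ?_ c.2) hy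
      rintro _ ⟨i, rfl⟩
      simp
  choose s hs s0 using hT
  let f : Option G × (∀ k, T k) → L := fun i => i.1.elim 1 (↑) * ∏ k, (i.2 k : L)
  let t0 : ∀ k, T k := fun k => ⟨s k, hs k⟩
  have p0 : ∏ k, (t0 k : L) ≠ 0 := Finset.prod_ne_zero_iff.2 fun k _ => s0 k
  have hF : DR.Frac f := DR.frac_iff.2 ⟨Function.ne_iff.2 ⟨(none, t0), by simpa [f] using p0⟩,
    eq_top_iff.2 (hG ▸ IntermediateField.adjoin.mono _ _ _ fun g hg =>
      ⟨_, ⟨(some ⟨g, hg⟩, t0), rfl⟩, _, ⟨(none, t0), rfl⟩, by simp [f, p0]⟩)⟩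
  obtain ⟨σ', _, n, M, hM⟩ := DR.sRes0 (DR.sPm DR.sCm) L _ f hF
  obtain rfl : n = 2 := by
    obtain ⟨z, hz⟩ := DR.cone_nonempty M.frac.1
    obtain ⟨x, D, h1, -, h3⟩ := M.smooth z hz
    refine le_antisymm (co_le C x D h3)
      (co_le ⟨x, D, fun i e => ?_, h3, fun v hv => ?_⟩ C.z C.D C.dual)
    · simpa [e] using h3 i i
    · exact Derivation.ext (DR.EFp.der_zero M.frac hz h1 v hv)
  refine ⟨M.toRS, fun k p => ?_⟩
  obtain ⟨z, hz⟩ := DR.exists_cone (f := M.f) (N := M.toRS) rfl p
  obtain ⟨j, hj, h⟩ := hM z hz.1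
  have h1 := mul_ne_zero_iff.1 hj
  have h2 := Finset.prod_ne_zero_iff.1 h1.2
  refine ⟨j.2 k, (j.2 k).2, h2 k (Finset.mem_univ _), fun s' hs' => ?_⟩
  have h3 := h (j.1, Function.update j.2 k ⟨s', hs'⟩)
  rw [← hz.2] at h3
  have e : f (j.1, Function.update j.2 k ⟨s', hs'⟩) / f j = s' / j.2 k := by
    simp only [f]
    rw [mul_div_mul_left _ _ h1.1, ← Finset.mul_prod_erase _ _ (Finset.mem_univ k),
      ← Finset.mul_prod_erase _ (fun k => (j.2 k : L)) (Finset.mem_univ k), Function.update_self,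
      Finset.prod_congr rfl fun i hi => by rw [Function.update_of_ne (Finset.ne_of_mem_erase hi)],
      mul_div_mul_right _ _ (Finset.prod_ne_zero_iff.2 fun i _ => h2 i (Finset.mem_univ _))]
  exact e ▸ h3

end

end Pool.Agent.MP_ee8c61_ag.M3SB
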