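import Pool.Agent.MP_ee8c61_ag.M3SB.Mdl
import Pool.Agent.MP_ee8c61_ag.M3J.SVK
import Pool.Agent.MP_ee8c61_ag.M3S.ROK
import Pool.Agent.MP_ee8c61_ag.M3V.Geo
import Pool.Agent.MP_cce4c9_lc.H7.AllA

/-! The divisor of a linear system without base points. -/

set_option autoImplicit false

namespace Pool.Agent.MP_ee8c61_ag.M3SB

open M3 M3RESID M3S M3J Pool.Agent.MP_96693b_ag.RS Pool.Agent.MP_cce4c9_lc.H87 WithZero Filter

noncomputable section

variable {K : Type} [Field K] [Algebra ℂ K] {M : Model K 2}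

/-- `D` is the divisor generated by the functions in `T`. -/
structure IsTh (T : Finset K) (D : Dr M) : Prop where
  int : IsInt D
  mem : ∀ s ∈ T, s ∈ H0 D
  gen : ∀ p, ∃ s ∈ T, Eqn (-D) p s

theorem ord_le {v : Place ℂ K} {s t : K} (hs : s ≠ 0) (ht : t ≠ 0) (h : v.val (t / s) ≤ 1) :
    v.ord s ≤ v.ord t := by
  rw [v.val_le_one (v.val_ne (div_ne_zero ht hs)), div_eq_mul_inv,
    v.ord_mul (v.val_ne ht) (v.val_ne (inv_ne_zero hs)), v.ord_inv] at h
  omega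

theorem exists_th (hM : FinS M) {T : Finset K} (hT : ∀ p, NoB T (M.loc p).O) :
    ∃ D : Dr M, IsTh T D := by
  classical
  choose s hs s0 hd using hT
  choose p hp _ using fun Γ : Crv M => Γ.2
  have hf : (Function.support fun Γ : Crv M => -(Γ.1.ord (s (p Γ)) : ℝ)).Finite :=
    (T.finite_toSet.biUnion fun t _ => hM.fin t).subset fun Γ h =>
      Set.mem_biUnion (hs (p Γ)) fun e => h (by simp [show Γ.1.ord (s (p Γ)) = 0 from e])
  have e : ∀ Γ, Finsupp.ofSupportFinite _ hf Γ = -(Γ.1.ord (s (p Γ)) : ℝ) := fun _ => rfl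
  refine ⟨Finsupp.ofSupportFinite _ hf, fun Γ => ⟨-Γ.1.ord (s (p Γ)), by rw [e, Int.cast_neg]⟩,
    fun t ht => ?_, fun q => ⟨s q, hs q, s0 q, fun Γ hq => ?_⟩⟩
  · by_cases h0 : t = 0
    · exact h0 ▸ zero_mem _
    refine (mem_H0 h0).2 fun Γ => ?_
    have := ord_le (s0 _) h0 (hp Γ _ (hd _ t ht))
    rw [e, ← sub_eq_add_neg, sub_nonneg]
    exact_mod_cast this
  · rw [Finsupp.neg_apply, e, neg_neg, le_antisymm (ord_le (s0 _) (s0 _) (hq _ (hd q _ (hs _))))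
      (ord_le (s0 _) (s0 _) (hp Γ _ (hd _ _ (hs q))))]

theorem II_eff (hM : Fnd M) {E : Dr M} (hE : 0 ≤ E) {Γ : Crv M} (h : E Γ = 0) :
    0 ≤ II M E (pr Γ) := M3SN.Lat0.eff_cv ⟨hM.sym, hM.off⟩ hE h

theorem II_add_dvr (hM : Fnd M) {f : K} (hf : f ≠ 0) (D E : Dr M) :
    II M (dvr M f + D) E = II M D E := by
  rw [map_add, LinearMap.add_apply, II_dvr hM.toDegS hf, zero_add]

theorem II_sum (E : Dr M) (Γ : Crv M) :
    II M E (pr Γ) = ∑ C ∈ E.support, E C * II M (pr C) (pr Γ) :=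
  M3SN.lin_sum ((II M).flip (pr Γ)) (M3SN.sup_support E)

/-- An effective divisor of degree zero on `Γ` that does not contain `Γ` misses `Γ`. -/
theorem miss (hM : Fnd M) {E : Dr M} (hE : 0 ≤ E) {Γ : Crv M} (h : E Γ = 0)
    (h0 : II M E (pr Γ) = 0) {p : M.P} (hp : On Γ p) {C : Crv M} (hC : On C p) : E C = 0 := by
  by_contra hn
  have hne : ∀ C ∈ E.support, C ≠ Γ := fun C hC e => Finsupp.mem_support_iff.1 hC (e ▸ h)
  have h1 := Finsupp.mem_support_iff.2 hn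
  rw [II_sum, Finset.sum_eq_zero_iff_of_nonneg fun C hC =>
    mul_nonneg (hE C) (hM.off _ _ (hne C hC))] at h0
  exact (mul_ne_zero hn ((hM.meet _ _ (hne C h1)).2 ⟨p, hC, hp⟩).ne') (h0 C h1)

theorem II_miss (hM : Fnd M) {E : Dr M} {Γ : Crv M}
    (h : ∀ p, On Γ p → ∀ C, On C p → E C = 0) : II M E (pr Γ) = 0 := by
  rw [II_sum]
  refine Finset.sum_eq_zero fun C hC => mul_eq_zero_of_right _ ?_
  have hn := Finsupp.mem_support_iff.1 hC
  obtain ⟨p, hp, -⟩ := Γ.2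
  have hne : C ≠ Γ := fun e => hn (h p hp C (e ▸ hp))
  exact le_antisymm (not_lt.1 fun h1 => let ⟨q, a, b⟩ := (hM.meet _ _ hne).1 h1; hn (h q b C a))
    (hM.off _ _ hne)

/-- A function that is regular along a curve is constant on it. -/
theorem const_on (hM : B2 M) {Γ : Crv M} {g : K} (h : ∀ p, On Γ p → g ∈ (M.loc p).O) :
    ∃ c : ℂ, Γ.1.val (g - algebraMap ℂ K c) < 1 := by
  obtain ⟨p, hp, -⟩ := Γ.2
  have h1 : Γ.1.val g ≤ 1 := hp _ (h p hp)
  obtain ⟨c, hc⟩ := (Pool.Agent.MP_cce4c9_lc.H7.ll ℂ _ (hM.ff Γ)).2.2.1 (res Γ.1 g) fun u => by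
    obtain ⟨q, hq⟩ := hM.cex Γ u
    exact hq.2 g (h q hq.1)
  refine ⟨c, (res_eq_zero ((Γ.1.val.map_sub _ _).trans (max_le h1 (Γ.1.const_le c)))).1 ?_⟩
  rw [res_sub h1 (Γ.1.const_le c), res_const, hc, sub_self]

namespace IsTh

variable {T : Finset K} {D : Dr M} (h : IsTh T D)
include h

theorem bpf : Bpf D := fun p => let ⟨s, hs, e⟩ := h.gen p; ⟨s, h.mem s hs, e⟩

theorem le {s : K} (hs : s ∈ T) (s0 : s ≠ 0) (Γ : Crv M) : -D Γ ≤ Γ.1.ord s := by
  have := (mem_H0 s0).1 (h.mem s hs) Γ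
  linarith

theorem ex (Γ : Crv M) : ∃ s ∈ T, s ≠ 0 ∧ (Γ.1.ord s : ℝ) = -D Γ := by
  obtain ⟨p, hp, -⟩ := Γ.2
  obtain ⟨s, hs, e⟩ := h.gen p
  exact ⟨s, hs, e.1, e.2 Γ hp⟩

/-- The coefficient is minus the least order. -/
theorem eq_of {Γ : Crv M} {r : ℝ} (h1 : ∀ s ∈ T, s ≠ 0 → -r ≤ Γ.1.ord s)
    (h2 : ∃ s ∈ T, s ≠ 0 ∧ (Γ.1.ord s : ℝ) = -r) : D Γ = r := by
  obtain ⟨s, hs, s0, e⟩ := h.ex Γ
  obtain ⟨t, ht, t0, e'⟩ := h2
  have := h1 s hs s0
  have := h.le ht t0 Γ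
  linarith

theorem nef (hM : Fnd M) : Nef D := fun Γ => by
  obtain ⟨s, hs, s0, e⟩ := h.ex Γ
  rw [← II_add_dvr hM s0]
  exact II_eff hM ((ROK.mem_iff hM.toFinS s0).1 (h.mem s hs)) (by
    rw [Finsupp.add_apply, hM.dva, e, neg_add_cancel])

/-- On a curve of degree zero all ratios of sections are constant. -/
theorem const (hM : Fnd M) {Γ : Crv M} (h0 : II M D (pr Γ) = 0) {s : K} (hs : s ∈ H0 D)
    (s0 : s ≠ 0) (e : (Γ.1.ord s : ℝ) = -D Γ) {t : K} (ht : t ∈ H0 D) :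
    ∃ c : ℂ, Γ.1.val (t / s - algebraMap ℂ K c) < 1 := by
  refine const_on hM.toB2 fun p hp => ?_
  have h1 : Eqn D p s⁻¹ := ⟨inv_ne_zero s0, fun C hC => by
    have := miss hM ((ROK.mem_iff hM.toFinS s0).1 hs) (Γ := Γ) (by
      rw [Finsupp.add_apply, hM.dva, e, neg_add_cancel]) (by rw [II_add_dvr hM s0, h0]) hp hC
    rw [Finsupp.add_apply, hM.dva] at this
    rw [C.1.ord_inv, Int.cast_neg]
    linarith⟩
  rw [div_eq_mul_inv]
  exact (hM.memH D h.int t).1 ht p _ h1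

/-- If all ratios are constant on a curve the degree is zero. -/
theorem null (hM : Fnd M) {Γ : Crv M} {s : K} (hs : s ∈ H0 D) (s0 : s ≠ 0)
    (hc : ∀ t ∈ T, ∃ c : ℂ, Γ.1.val (t / s - algebraMap ℂ K c) < 1) : II M D (pr Γ) = 0 := by
  rw [← II_add_dvr hM s0]
  refine II_miss hM fun p hp C hC => ?_
  obtain ⟨t, ht, t0, e'⟩ := h.gen p
  obtain ⟨c, hc⟩ := hc t ht
  have h1 : Eqn D p t⁻¹ := by simpa using M3V.eq_inv (D := -D) ⟨t0, e'⟩
  have h2 : s / t ∈ (M.loc p).O := div_eq_mul_inv s t ▸ (hM.memH D h.int s).1 hs p _ h1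
  have h3 : 1 - algebraMap ℂ K c * (s / t) = (t / s - algebraMap ℂ K c) * (s / t) := by
    field_simp
  have h4 : algebraMap ℂ K c * (s / t) ∈ (M.loc p).O := mul_mem ((M.loc p).O.algebraMap_mem c) h2
  have h5 := hM.evz Γ p hp _ (sub_mem (one_mem _) h4) (by
    rw [h3, map_mul]
    exact lt_of_le_of_lt (mul_le_of_le_one_right' (hp _ h2)) hc)
  rw [Loc.ev_sub (one_mem _) h4, Loc.ev_one, (M.loc p).ev_mul _ ((M.loc p).O.algebraMap_mem c) _ h2,
    sub_eq_zero] at h5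
  have h6 := (hM.unit p (s / t)).1 (right_ne_zero_of_mul_eq_one h5.symm) C hC
  have h7 := le_antisymm (ord_le t0 s0 h6.le) (ord_le s0 t0 (by
    rw [← inv_div, map_inv₀, h6, inv_one]))
  rw [Finsupp.add_apply, hM.dva, ← h7, e' C hC, Finsupp.neg_apply, neg_add_cancel]

end IsTh

theorem br_F1 {o : DV K} {C : M3RESID.Co K 2} (hA : C.At o 0) {g h : K} {c c' : ℂ}
    (hg : g - algebraMap ℂ K c ∈ o.F 1) (hh : h - algebraMap ℂ K c' ∈ o.F 1) :
    br C g h ∈ o.F 1 := by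
  have a : ∀ i, C.D i g = C.D i (g - algebraMap ℂ K c) := fun i => by simp
  have b : ∀ i, C.D i h = C.D i (h - algebraMap ℂ K c') := fun i => by simp
  rw [br, a, a, b, b]
  exact sub_mem (F_mul' (D0_F hA hg) (D1_F hA hh) (by omega))
    (F_mul' (D1_F hA hg) (D0_F hA hh) (by omega))

/-- Two independent functions are both constant on finitely many curves only. -/
theorem fin_const (hM : B2 M) (C : M3RESID.Co K 2) {g h : K} (hb : br C g h ≠ 0) :
    {Γ : Crv M | (∃ c : ℂ, Γ.1.val (g - algebraMap ℂ K c) < 1) ∧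
      ∃ c : ℂ, Γ.1.val (h - algebraMap ℂ K c) < 1}.Finite := by
  refine (((hM.fin (br C g h)).union (hM.fin (rho C))).union
    (KD M).support.finite_toSet).subset ?_
  rintro Γ ⟨⟨c, hc⟩, c', hc'⟩
  by_contra hn
  simp only [Set.mem_union, Set.mem_ofPred_eq, Finset.mem_coe, Finsupp.mem_support_iff, not_or,
    not_not] at hn
  obtain ⟨C', hA⟩ := exists_At hM.toB1 Γ
  have lt : ∀ {x : K}, Γ.1.val x < 1 → x ∈ (oC Γ).F 1 := fun {x} hx => by
    by_cases h0 : x = 0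
    · exact Or.inl h0
    · exact Or.inr ((Γ.1.val_lt_one (Γ.1.val_ne h0)).1 hx)
  have h1 := ord_br hM C hA
  rw [hn.1.2, hn.2, Int.cast_zero, sub_zero, Int.cast_eq_zero] at h1
  have h2 := br_chain C C' g h
  have h3 : br C' g h ≠ 0 := fun e => hb (by rw [h2, e, mul_zero])
  have h4 := (br_F1 hA (lt hc) (lt hc')).resolve_left h3
  have h5 := (oC Γ).mul _ _ (br_ne C C') h3
  rw [← h2, dvP_v, dvP_v, hn.1.1, h1] at h5
  omega

theorem der_adj {S : Set K} (hS : IntermediateField.adjoin ℂ S = ⊤) {δ : VF K}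
    (h : ∀ g ∈ S, δ g = 0) (g : K) : δ g = 0 := by
  have h1 : IntermediateField.adjoin ℂ S ≤ M3F.cst {δ} :=
    IntermediateField.adjoin_le_iff.2 fun x hx _ e => Set.mem_singleton_iff.1 e ▸ h x hx
  exact h1 (hS ▸ trivial : g ∈ IntermediateField.adjoin ℂ S) δ rfl

theorem exists_br (C : M3RESID.Co K 2) {S : Set K} (hS : IntermediateField.adjoin ℂ S = ⊤) :
    ∃ g ∈ S, ∃ h ∈ S, br C g h ≠ 0 := by
  by_contra! hn
  have a : ∀ g ∈ S, ∀ h, br C g h = 0 := fun g hg h => by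
    have := der_adj hS (δ := C.D 0 g • C.D 1 - C.D 1 g • C.D 0) (fun x hx => hn g hg x hx) h
    exact this
  have := der_adj hS (δ := C.D 1 (C.z 1) • C.D 0 - C.D 0 (C.z 1) • C.D 1)
    (fun x hx => by
      have := a x hx (C.z 1)
      simp only [br, Derivation.sub_apply, Derivation.smul_apply, smul_eq_mul] at this ⊢
      linear_combination this) (C.z 0)
  simp [C.dual] at this

namespace IsTh

variable {T : Finset K} {D : Dr M} (h : IsTh T D)
include h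

/-- If the ratios generate the field then finitely many curves have degree zero. -/
theorem fin_null (hM : Fnd M) (C : M3RESID.Co K 2)
    (hS : IntermediateField.adjoin ℂ (Set.image2 (· / ·) (T : Set K) T) = ⊤) :
    {Γ : Crv M | II M D (pr Γ) = 0}.Finite := by
  classical
  refine (T.finite_toSet.biUnion (t := fun s => {Γ : Crv M | s ≠ 0 ∧
    ∀ t ∈ T, ∃ c : ℂ, Γ.1.val (t / s - algebraMap ℂ K c) < 1}) fun s hs => ?_).subset
    fun Γ h0 => ?_
  · by_cases s0 : s = 0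
    · simp [s0]
    have h1 : IntermediateField.adjoin ℂ ((fun t => t / s) '' (T : Set K)) = ⊤ :=
      eq_top_iff.2 (hS ▸ IntermediateField.adjoin_le_iff.2 (by
        rintro _ ⟨a, ha, b, hb, rfl⟩
        have : a / b = a / s / (b / s) := by rw [div_div_div_cancel_right₀ s0]
        simp only
        rw [this]
        exact div_mem (IntermediateField.subset_adjoin _ _ ⟨a, ha, rfl⟩)
          (IntermediateField.subset_adjoin _ _ ⟨b, hb, rfl⟩)))
    obtain ⟨_, ⟨a, ha, rfl⟩, _, ⟨b, hb, rfl⟩, hb0⟩ := exists_br C h1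
    exact (fin_const hM.toB2 C hb0).subset fun Γ hΓ => ⟨hΓ.2 a ha, hΓ.2 b hb⟩
  · obtain ⟨s, hs, s0, e⟩ := h.ex Γ
    exact Set.mem_biUnion hs ⟨s0, fun t ht => h.const hM h0 (h.mem s hs) s0 e (h.mem t ht)⟩

theorem big (hM : Fnd M) (C : M3RESID.Co K 2)
    (hS : IntermediateField.adjoin ℂ (Set.image2 (· / ·) (T : Set K) T) = ⊤) :
    0 < II M D D := by
  obtain ⟨p, hp⟩ := ROK.off hM (h.fin_null hM C hS).toFinset
  obtain ⟨s, hs, s0, e⟩ := h.gen p
  have h1 : Eqn D p s⁻¹ := by simpa using M3V.eq_inv (D := -D) ⟨s0, e⟩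
  have hO : ∀ t ∈ T, t / s ∈ (M.loc p).O := fun t ht =>
    div_eq_mul_inv t s ▸ (hM.memH D h.int t).1 (h.mem t ht) p _ h1
  obtain ⟨t, ht, hne⟩ : ∃ t ∈ T, t / s - algebraMap ℂ K ((M.loc p).ev (t / s)) ≠ 0 := by
    by_contra! hn
    have := der_adj hS (δ := C.D 0) (by
      rintro _ ⟨a, ha, b, hb, rfl⟩
      have : a / b = a / s / (b / s) := by rw [div_div_div_cancel_right₀ s0]
      simp only
      rw [this, sub_eq_zero.1 (hn a ha), sub_eq_zero.1 (hn b hb), ← map_div₀,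
        Derivation.map_algebraMap]) (C.z 0)
    simp [C.dual] at this
  set c := (M.loc p).ev (t / s) with hc
  have hm : t / s - algebraMap ℂ K c ∈ (M.loc p).O :=
    sub_mem (hO t ht) ((M.loc p).O.algebraMap_mem c)
  obtain ⟨Γ, hΓ, hv⟩ := hM.thru p _ hm (by
    rw [Loc.ev_sub (hO t ht) ((M.loc p).O.algebraMap_mem c), (M.loc p).ev_alg, sub_self])
  have e1 : t - c • s = (t / s - algebraMap ℂ K c) * s := by
    rw [Algebra.smul_def]
    field_simp
  have f0 : t - c • s ≠ 0 := e1 ▸ mul_ne_zero hne s0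
  have hE := (ROK.mem_iff hM.toFinS f0).1
    (sub_mem (h.mem t ht) (Submodule.smul_mem _ c (h.mem s hs)))
  have h2 := M3SN.Nef.term_le (I := II M) (h.nef hM) hE Γ
  rw [hM.sym D (_ + _), II_add_dvr hM f0] at h2
  refine lt_of_lt_of_le (mul_pos ?_ (lt_of_le_of_ne (h.nef hM Γ) fun e0 =>
    hp Γ ((Set.Finite.mem_toFinset _).2 e0.symm) hΓ)) h2
  rw [Finsupp.add_apply, hM.dva, e1, Γ.1.ord_mul (Γ.1.val_ne hne) (Γ.1.val_ne s0), Int.cast_add,
    e Γ hΓ, Finsupp.neg_apply, neg_add_cancel_right]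
  exact_mod_cast (Γ.1.val_lt_one (Γ.1.val_ne hne)).1 hv

theorem adj (hS : IntermediateField.adjoin ℂ (Set.image2 (· / ·) (T : Set K) T) = ⊤) :
    IntermediateField.adjoin ℂ (H0 D : Set K) = ⊤ :=
  eq_top_iff.2 (hS ▸ IntermediateField.adjoin_le_iff.2 (by
    rintro _ ⟨a, ha, b, hb, rfl⟩
    exact div_mem (IntermediateField.subset_adjoin _ _ (h.mem a ha))
      (IntermediateField.subset_adjoin _ _ (h.mem b hb))))

end IsTh

end

end Pool.Agent.MP_ee8c61_ag.M3SB
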